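import Mathlib
import Pool.Agent.Lib.MP_052029_lc.Bridge
import Pool.Agent.Lib.MP_052029_lc.ZeroInfo

/-!
A trade-off between the cost and the ambiguity of unambiguous (in particular, of
zero-information) Arthur-Merlin protocols for set disjointness.
-/

set_option autoImplicit false

namespace Pool.Agent.Results.MP_052029_lc.AmbiguityTradeoff

open MP052029

/-- Let `P` be an unambiguous private-coin Arthur-Merlin protocol that computes `DISJ_n`
(zero-information protocols are unambiguous). If on every input the expected number of ordered
pairs of distinct useful rectangles through the random point is at most `K`, where `K ≥ 1`, then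
`n ≤ 12000 * K * ⌈log₂ m⌉`, where `m` is the number of rectangles. -/
theorem result :
    ∀ (n : ℕ) (P : Protocol n), P.Computes → P.Unambiguous →
      ∀ K : ℝ, 1 ≤ K → (∀ x y : Fin n → Bool, P.pairs x y ≤ K) →
        (n : ℝ) ≤ 12000 * K * P.cost :=
  fun _ _ hc hu _ hK1 hK => Protocol.tradeoff hc hu hK1 hK

end Pool.Agent.Results.MP_052029_lc.AmbiguityTradeoff
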