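import Mathlib
import Pool.Agent.Lib.MP_052029_lc.U.Main
import Pool.Agent.Lib.MP_052029_lc.U.Ex

/-!
The zero-information Arthur-Merlin complexity of set disjointness is superlogarithmic.
-/

set_option autoImplicit false

namespace Pool.Agent.Results.MP_052029_lc.AnswerSuperlog

open MP052029 Filter

/-- `ZAM(DISJ_n)`: the least cost of a zero-information protocol that computes `DISJ_n`. -/
noncomputable def ZAM (n : ℕ) : ℕ :=
  sInf {c : ℕ | ∃ P : Protocol n, P.Computes ∧ P.ZeroInformation ∧ P.cost = c}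

lemma ZAM_mem (n : ℕ) : ∃ P : Protocol n, P.Computes ∧ P.ZeroInformation ∧ P.cost = ZAM n :=
  Nat.sInf_mem (s := {c : ℕ | ∃ P : Protocol n, P.Computes ∧ P.ZeroInformation ∧ P.cost = c})
    ⟨_, Z50.PP n, Z50.PP_computes, Z50.PP_zero, rfl⟩

/-- Every unambiguous private-coin Arthur-Merlin protocol `P` that computes `DISJ_n` satisfies
`n ≤ 21000 (cost + 6) ^ 4`. The minimum `ZAM(DISJ_n)` over the zero-information protocols is
attained, and `ZAM(DISJ_n) / log n` tends to infinity, that is, `ZAM(DISJ_n) = ω(log n)`. -/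
theorem result :
    (∀ (n : ℕ) (P : Protocol n), P.Computes → P.Unambiguous →
      n ≤ 21000 * (P.cost + 6) ^ 4) ∧
    (∀ n : ℕ, ∃ P : Protocol n, P.Computes ∧ P.ZeroInformation ∧ P.cost = ZAM n) ∧
    Tendsto (fun n : ℕ => (ZAM n : ℝ) / Real.log n) atTop atTop := by
  refine ⟨fun n P hC hU => Z50.lower_cost P hC hU, ZAM_mem, ?_⟩
  have hu : ∀ n, n ≤ 21000 * (ZAM n + 6) ^ 4 := by
    intro n
    obtain ⟨P, hC, hZ, hc⟩ := ZAM_mem n
    rw [← hc]
    exact Z50.lower_cost P hC hZ.1
  have ho := Pool.Agent.Lib.MP_052029_lc.U.omega ZAM hu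
  rw [tendsto_atTop]
  intro C
  obtain ⟨N, hN⟩ := ho C
  filter_upwards [eventually_ge_atTop (max N 2)] with n hn
  have h1 := hN n (le_of_max_le_left hn)
  have h2 : 2 ≤ n := le_of_max_le_right hn
  have h3 : 0 < Real.log n := Real.log_pos (by exact_mod_cast h2)
  rw [le_div_iff₀ h3]
  exact h1.le

end Pool.Agent.Results.MP_052029_lc.AnswerSuperlog
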