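import Mathlib
import Pool.Agent.Lib.MP_052029_lc.Z.ZE7

/-!
A linear lower bound for unambiguous Arthur-Merlin protocols for set disjointness whose
acceptance on uniquely intersecting pairs is decided by the common element and a short
conversation.
-/

set_option autoImplicit false

namespace Pool.Agent.Results.MP_052029_lc.DecidedProtocols

open MP052029 MP052029.Zr

/-- Let `P` be an unambiguous private-coin Arthur-Merlin protocol that computes `DISJ_n`. Suppose
that for all outcomes `(r, q)` of the coins there is a partition `leaf r q` of the input pairs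
into `k` combinatorial rectangles such that acceptance of a pair with exactly one common element
depends only on this element and on its part. Then `n ≤ 1200 (cost + log₂ k)`. -/
theorem result :
    ∀ (n : ℕ) (P : Protocol n), 1 ≤ n → P.Computes → P.Unambiguous →
      ∀ (k : ℕ) (leaf : P.R → P.Q → (Fin n → Bool) → (Fin n → Bool) → Fin k),
        (∀ r q, IsRect (leaf r q)) → DecidedBy P leaf →
        (n : ℝ) ≤ 1200 * (P.cost + Real.logb 2 k) := by
  intro n P hn hc hu k leaf hl hD
  have h3 := dec hn hc hu leaf hl hD
  have ho : Disj (fun _ : Fin n => false) (fun _ => false) := by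
    rintro ⟨i, h, _⟩
    exact Bool.false_ne_true h
  obtain ⟨r⟩ := P.nonemptyR
  obtain ⟨q⟩ := P.nonemptyQ
  obtain ⟨j, _⟩ := Protocol.exists_hit hc ho r q
  have hm : 1 ≤ P.m := lt_of_le_of_lt (Nat.zero_le _) j.2
  have hk : 1 ≤ k :=
    lt_of_le_of_lt (Nat.zero_le _) (leaf r q (fun _ => false) (fun _ => false)).2
  have hmR : (0 : ℝ) < P.m := by exact_mod_cast hm
  have hkR : (1 : ℝ) ≤ k := by exact_mod_cast hk
  have h4 : Real.log P.m ≤ P.cost * Real.log 2 := by
    have h5 : (P.m : ℝ) ≤ (2 : ℝ) ^ P.cost := by
      exact_mod_cast Nat.le_pow_clog (by norm_num) P.m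
    calc Real.log P.m ≤ Real.log ((2 : ℝ) ^ P.cost) := Real.log_le_log hmR h5
      _ = P.cost * Real.log 2 := Real.log_pow _ _
  have h6 : Real.log k = Real.logb 2 k * Real.log 2 := by
    unfold Real.logb
    rw [div_mul_cancel₀]
    exact (Real.log_pos (by norm_num)).ne'
  have h7 : 0 ≤ Real.logb 2 k := Real.logb_nonneg (by norm_num) hkR
  have h8 : (0 : ℝ) ≤ P.cost := Nat.cast_nonneg _
  rw [Real.log_mul hmR.ne' (by linarith), h6] at h3
  have h9 : Real.log P.m + Real.logb 2 k * Real.log 2 ≤
      (P.cost + Real.logb 2 k) * 0.6931471808 := by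
    have h10 := Real.log_two_lt_d9
    nlinarith
  have h11 : 1728 * ((P.cost + Real.logb 2 k) * 0.6931471808) ≤
      1200 * (P.cost + Real.logb 2 k) := by nlinarith
  linarith

end Pool.Agent.Results.MP_052029_lc.DecidedProtocols
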